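import Mathlib

namespace Pool.Agent.Results.MP_a9f5dc_al.Full

open scoped commutatorElement

/-- The generator `a` on finite binary words (`false` is `0`, `true` is `1`). -/
def fa : List Bool → List Bool
  | [] => []
  | false :: w => true :: w
  | true :: w => false :: w

mutual
/-- The generator `b`. -/
def fb : List Bool → List Bool
  | [] => []
  | false :: w => false :: fa w
  | true :: w => true :: fc w
/-- The generator `c`. -/
def fc : List Bool → List Bool
  | [] => []
  | false :: w => false :: fa w
  | true :: w => true :: fd w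
/-- The generator `d`. -/
def fd : List Bool → List Bool
  | [] => []
  | false :: w => false :: w
  | true :: w => true :: fb w
end

lemma fa_inv : Function.Involutive fa := by
  rintro (_ | ⟨_ | _, w⟩) <;> rfl

lemma f_inv (w : List Bool) : fb (fb w) = w ∧ fc (fc w) = w ∧ fd (fd w) = w := by
  induction w with
  | nil => simp [fb, fc, fd]
  | cons x w ih => cases x <;> simp [fb, fc, fd, ih, fa_inv w]

lemma f_mul (w : List Bool) : (fb (fc w) = fd w ∧ fc (fd w) = fb w ∧ fd (fb w) = fc w) ∧
    (fc (fb w) = fd w ∧ fd (fc w) = fb w ∧ fb (fd w) = fc w) := by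
  induction w with
  | nil => simp [fb, fc, fd]
  | cons x w ih => cases x <;> simp [fb, fc, fd, ih, fa_inv w]

def a : Equiv.Perm (List Bool) := fa_inv.toPerm fa
def b : Equiv.Perm (List Bool) := Function.Involutive.toPerm fb fun w => (f_inv w).1
def c : Equiv.Perm (List Bool) := Function.Involutive.toPerm fc fun w => (f_inv w).2.1
def d : Equiv.Perm (List Bool) := Function.Involutive.toPerm fd fun w => (f_inv w).2.2

/-- The first Grigorchuk group, acting on the vertices of the rooted binary tree. -/
def Grig : Subgroup (Equiv.Perm (List Bool)) := Subgroup.closure {a, b, c, d}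

/-- The genus two surface group on `x₁, y₁, x₂, y₂` (indices `0, 1, 2, 3`). -/
abbrev S2 : Type :=
  PresentedGroup ({⁅FreeGroup.of (0 : Fin 4), FreeGroup.of (1 : Fin 4)⁆ *
    ⁅FreeGroup.of (2 : Fin 4), FreeGroup.of (3 : Fin 4)⁆} : Set (FreeGroup (Fin 4)))

lemma bc : b * c = d := Equiv.ext fun w => (f_mul w).1.1
lemma cb : c * b = d := Equiv.ext fun w => (f_mul w).2.1

theorem result : (∃ φ : S2 →* Grig, Function.Surjective φ) ∧
    ∃ u₁ v₁ u₂ v₂ : Grig, Subgroup.closure {u₁, v₁, u₂, v₂} = ⊤ ∧ ⁅u₁, v₁⁆ * ⁅u₂, v₂⁆ = 1 := by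
  let A : Grig := ⟨a, Subgroup.subset_closure (by simp)⟩
  let B : Grig := ⟨b, Subgroup.subset_closure (by simp)⟩
  let C : Grig := ⟨c, Subgroup.subset_closure (by simp)⟩
  have hrel : ⁅B, C⁆ * ⁅A, (1 : Grig)⁆ = 1 := by
    have : Commute B C := Subtype.ext (bc.trans cb.symm)
    rw [this.commutator_eq, commutatorElement_one_right, mul_one]
  have hgen : ∀ H : Subgroup Grig, A ∈ H → B ∈ H → C ∈ H → H = ⊤ := by
    intro H hA hB hC
    rw [eq_top_iff]
    rintro ⟨g, hg⟩ -
    induction hg using Subgroup.closure_induction with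
    | mem x hx =>
      simp only [Set.mem_insert_iff, Set.mem_singleton_iff] at hx
      rcases hx with rfl | rfl | rfl | rfl
      · exact hA
      · exact hB
      · exact hC
      · have : (⟨d, Subgroup.subset_closure (by simp)⟩ : Grig) = B * C := Subtype.ext bc.symm
        exact this ▸ H.mul_mem hB hC
    | one => exact H.one_mem
    | mul x y hx hy ihx ihy => exact H.mul_mem ihx ihy
    | inv x hx ih => exact H.inv_mem ih
  refine ⟨⟨PresentedGroup.toGroup (f := ![B, C, A, 1]) ?_, ?_⟩, B, C, A, 1, ?_, hrel⟩
  · rintro r rfl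
    simpa [map_commutatorElement] using hrel
  · rw [← MonoidHom.range_eq_top]
    exact hgen _ ⟨PresentedGroup.of 2, PresentedGroup.toGroup.of _⟩
      ⟨PresentedGroup.of 0, PresentedGroup.toGroup.of _⟩
      ⟨PresentedGroup.of 1, PresentedGroup.toGroup.of _⟩
  · exact hgen _ (Subgroup.subset_closure (by simp)) (Subgroup.subset_closure (by simp))
      (Subgroup.subset_closure (by simp))

end Pool.Agent.Results.MP_a9f5dc_al.Full
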